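import Pool.Agent.H92.Ang1

open Pool.Agent.H92.Ang

namespace Pool.Agent.Results.MP_843c3c_an.Distinct

/-- The five classes of normed spaces are pairwise different. -/
theorem result (α β γ δ : ℝ) (h1 : 1 < γ) (h2 : γ < δ) (h3 : 1 < α) (h4 : α < β) :
    [Cls (-δ), Cls (-γ), Set.univ, Cls α, Cls β].Pairwise (· ≠ ·) := by
  obtain ⟨A, a1, a2, a3⟩ := exA h3
  obtain ⟨B, b1, -, b3⟩ := exA (h3.trans h4)
  obtain ⟨C, -, c2, -⟩ := exA (r := (1 + α) / 2) (by linarith)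
  obtain ⟨D, d1, d2⟩ := exB h1
  have ne : ∀ {s t : Set NSp} (W : NSp), W ∉ s → W ∈ t → s ≠ t := fun W h h' e => h (e ▸ h')
  simp only [List.pairwise_cons, List.mem_cons, List.not_mem_nil, or_false, forall_eq_or_imp,
    forall_eq, IsEmpty.forall_iff, implies_true, List.Pairwise.nil, and_true]
  exact ⟨⟨ne D (d2 _ h2) d1, ne D (d2 _ h2) (Set.mem_univ _), ne A (a3 _ (h1.trans h2)) a1,
    ne B (b3 _ (h1.trans h2)) b1⟩, ⟨ne A (a3 _ h1) (Set.mem_univ _), ne A (a3 _ h1) a1, ne B (b3 _ h1) b1⟩,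
    ⟨(ne C (c2 _ (by linarith)) (Set.mem_univ _)).symm, (ne A (a2 _ h4) (Set.mem_univ _)).symm⟩,
    (ne A (a2 _ h4) a1).symm⟩

end Pool.Agent.Results.MP_843c3c_an.Distinct
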